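import Pool.Agent.H4.EPB.Stm

/-! Part BB11: the condition `Core` is existential. -/

set_option autoImplicit false

namespace Pool.Agent.H37.EP

open Pool.Agent.Helper687.Arith Pool.Agent.H51.EP Pool.Agent.H4.EPB

theorem apv_lt {M : Type} {m : ℕ} (w v : ℕ → M) {i : ℕ} (h : i < m) : apv m w v i = w i := by
  unfold apv
  rw [if_pos h]

theorem apv_add {M : Type} (m : ℕ) (w v : ℕ → M) (i : ℕ) : apv m w v (i + m) = v i := by
  unfold apv
  rw [if_neg (by omega), Nat.add_sub_cancel]

theorem apv_congr {M : Type} {m : ℕ} {w w' : ℕ → M} (v : ℕ → M) (h : ∀ i, i < m → w i = w' i) :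
    apv m w v = apv m w' v := by
  funext i
  unfold apv
  split_ifs with hi
  · exact h i hi
  · rfl

theorem apv_cns {M : Type} (m : ℕ) (x : M) (a v : ℕ → M) :
    apv m a (cns x v) = apv (m + 1) (fun i => if i = m then x else a i) v := by
  funext i
  rcases lt_trichotomy i m with h | h | h
  · rw [apv_lt _ _ h, apv_lt _ _ (by omega), if_neg (by omega)]
  · subst h
    unfold apv
    rw [if_neg (lt_irrefl _), if_pos (Nat.lt_succ_self _), Nat.sub_self]
    exact (if_pos rfl).symm
  · obtain ⟨j, rfl⟩ : ∃ j, i = j + (m + 1) := ⟨i - (m + 1), by omega⟩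
    rw [apv_add, show j + (m + 1) = (j + 1) + m by omega, apv_add]
    rfl

theorem cns_eta {M : Type} (v : ℕ → M) : cns (v 0) (fun n => v (n + 1)) = v := by
  funext n
  cases n <;> rfl

/-- `m` existential quantifiers -/
theorem dio_exs (m : ℕ) : ∀ {R : ∀ (M : Type) [PAModel M], (ℕ → M) → Prop}, Dio R →
    Dio (fun M _ v => ∃ a : ℕ → M, R M (apv m a v)) := by
  induction m with
  | zero =>
    intro R hR
    refine hR.congr fun M _ v => ?_
    have e : ∀ a : ℕ → M, apv 0 a v = v := by
      intro a
      funext i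
      exact apv_add 0 a v i
    constructor
    · intro h
      exact ⟨v, by rw [e]; exact h⟩
    · rintro ⟨a, ha⟩
      rw [e] at ha
      exact ha
  | succ m ih =>
    intro R hR
    have h1 : Dio (fun M _ v => ∃ x : M, ∃ a : ℕ → M, R M (apv m a (cns x v))) := by
      refine Dio.ex (S := fun M _ v x => ∃ a : ℕ → M, R M (apv m a (cns x v))) ?_
      refine (ih hR).congr fun M _ v => ?_
      rw [cns_eta]
    refine h1.congr fun M _ v => ?_
    constructor
    · rintro ⟨x, a, h⟩
      rw [apv_cns] at h
      exact ⟨_, h⟩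
    · rintro ⟨a, h⟩
      refine ⟨a m, a, ?_⟩
      rw [apv_cns]
      have e : (fun i => if i = m then a m else a i) = a := by
        funext i
        split_ifs with hi
        · rw [hi]
        · rfl
      rw [e]
      exact h

theorem dio_forall_lt (m : ℕ) {R : ℕ → ∀ (M : Type) [PAModel M], (ℕ → M) → Prop}
    (h : ∀ j, j < m → Dio (R j)) : Dio (fun M _ v => ∀ j, j < m → R j M v) := by
  induction m with
  | zero => exact Dio.true.congr fun M _ v => by simp
  | succ m ih =>
    refine ((ih fun j hj => h j (by omega)).and (h m (by omega))).congr fun M _ v => ?_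
    constructor
    · rintro ⟨h1, h2⟩ j hj
      rcases Nat.lt_succ_iff_lt_or_eq.1 hj with hj | rfl
      · exact h1 j hj
      · exact h2
    · intro h1
      exact ⟨fun j hj => h1 j (by omega), h1 m (by omega)⟩

theorem dioF_ev (t : PT) {g : ∀ (M : Type) [PAModel M], (ℕ → M) → ℕ → M}
    (h : ∀ i, DioF (fun M _ v => g M v i)) : DioF (fun M _ v => t.ev (g M v)) := by
  induction t with
  | var i => exact h i
  | zero => exact DioF.zero
  | succ t ih => exact ih.add DioF.one
  | add t s iht ihs => exact iht.add ihs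
  | mul t s iht ihs => exact iht.mul ihs

theorem dioF_apv (m : ℕ) {a : ∀ (M : Type) [PAModel M], (ℕ → M) → ℕ → M}
    {y : ∀ (M : Type) [PAModel M], (ℕ → M) → M} {w : ∀ (M : Type) [PAModel M], (ℕ → M) → ℕ → M}
    (ha : ∀ i, DioF (fun M _ v => a M v i)) (hy : DioF y)
    (hw : ∀ i, DioF (fun M _ v => w M v i)) (i : ℕ) :
    DioF (fun M _ v => apv m (a M v) (cns (y M v) (w M v)) i) := by
  rcases lt_or_ge i m with h | h
  · refine Dio.congr (ha i) fun M _ v => ?_
    simp only [apv_lt _ _ h]
  · obtain ⟨j, rfl⟩ : ∃ j, i = j + m := ⟨i - m, by omega⟩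
    cases j with
    | zero =>
      refine Dio.congr hy fun M _ v => ?_
      simp only [apv_add]
      rfl
    | succ j =>
      refine Dio.congr (hw j) fun M _ v => ?_
      simp only [apv_add]
      rfl

theorem BB11 : S_BB11 := by
  intro hbn hfc m t s f hf
  have Hbn : ∀ {f g : ∀ (M : Type) [PAModel M], (ℕ → M) → M}, DioF f → DioF g →
      DioF (fun M _ v => bn (f M v) (g M v)) := fun hf hg =>
    DioF.app2 (F := fun _ _ a b => bn a b) hbn hf hg
  have Hfc : ∀ {f : ∀ (M : Type) [PAModel M], (ℕ → M) → M}, DioF f →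
      DioF (fun M _ v => fc (f M v)) := fun hf => DioF.app1 (F := fun _ _ a => fc a) hfc hf
  refine Dio.ex (S := fun M _ v u => ∃ a : ℕ → M, Core m t s (f M v) u v a) ?_
  -- the relation for the sequence `a 0, …, a (m - 1), u, v 0, v 1, …`
  have hR : Dio (fun M _ x => ∃ c, c + 1 = fc (Bd m t s (f M (fun n => x (n + 1 + m))) (x m)
        (fun n => x (n + 1 + m))) * fc (Bd m t s (f M (fun n => x (n + 1 + m))) (x m)
        (fun n => x (n + 1 + m))) ∧
      (∀ j, j < m → bn c (f M (fun n => x (n + 1 + m))) ∣ bn (x j) (x m + 1)) ∧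
      Cg (bn c (f M (fun n => x (n + 1 + m))))
        (t.ev (apv m x (cns c (fun n => x (n + 1 + m)))))
        (s.ev (apv m x (cns c (fun n => x (n + 1 + m)))))) := by
    refine Dio.ex (S := fun M _ x c => c + 1 = fc (Bd m t s (f M (fun n => x (n + 1 + m))) (x m)
        (fun n => x (n + 1 + m))) * fc (Bd m t s (f M (fun n => x (n + 1 + m))) (x m)
        (fun n => x (n + 1 + m))) ∧
      (∀ j, j < m → bn c (f M (fun n => x (n + 1 + m))) ∣ bn (x j) (x m + 1)) ∧
      Cg (bn c (f M (fun n => x (n + 1 + m))))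
        (t.ev (apv m x (cns c (fun n => x (n + 1 + m)))))
        (s.ev (apv m x (cns c (fun n => x (n + 1 + m)))))) ?_
    have hy : DioF (fun M _ x => f M (fun n => x (n + 1 + m + 1))) :=
      hf.ren (fun n => n + 1 + m + 1)
    have hv : ∀ i, DioF (fun _ _ x => x (i + 1 + m + 1)) := fun i => DioF.var _
    have hB : DioF (fun M _ x => Bd m t s (f M (fun n => x (n + 1 + m + 1))) (x (m + 1))
        (fun n => x (n + 1 + m + 1))) := by
      have h1 := dioF_apv m (a := fun M _ x _ => x (m + 1))
        (y := fun M _ x => f M (fun n => x (n + 1 + m + 1)))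
        (w := fun M _ x i => x (i + 1 + m + 1)) (fun i => DioF.var _) hy hv
      unfold Bd
      have h3 : DioF (fun M _ _ => (3 : M)) := by
        refine Dio.congr (DioF.num 3) fun M _ v => ?_
        simp
      exact ((((dioF_ev t h1).add (dioF_ev s h1)).add hy).add (DioF.var _)).add h3
    have h2 := dioF_apv m (a := fun M _ x i => x (i + 1)) (y := fun M _ x => x 0)
      (w := fun M _ x i => x (i + 1 + m + 1)) (fun i => DioF.var _) (DioF.var 0) hv
    refine Dio.and (Dio.eq ((DioF.var 0).add DioF.one) ((Hfc hB).mul (Hfc hB)))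
      (Dio.and (dio_forall_lt m fun j _ => Dio.dvd (Hbn (DioF.var 0) hy)
        (Hbn (DioF.var (j + 1)) ((DioF.var (m + 1)).add DioF.one)))
        (Dio.cg (Hbn (DioF.var 0) hy) (dioF_ev t h2) (dioF_ev s h2)))
  refine (dio_exs m hR).congr fun M _ w => ?_
  refine exists_congr fun a => ?_
  have e1 : (fun n => apv m a w (n + 1 + m)) = fun n => w (n + 1) := by
    funext n
    exact apv_add m a w (n + 1)
  have e2 : apv m a w m = w 0 := by
    have := apv_add m a w 0
    rwa [Nat.zero_add] at this
  have e3 : ∀ z : ℕ → M, apv m (apv m a w) z = apv m a z := fun z =>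
    apv_congr z fun i hi => apv_lt a w hi
  unfold Core
  simp only [e1, e2, e3]
  refine exists_congr fun c => and_congr Iff.rfl (and_congr ?_ Iff.rfl)
  refine forall_congr' fun j => forall_congr' fun hj => ?_
  rw [apv_lt a w hj]

end Pool.Agent.H37.EP
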