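import Pool.Agent.H51.EP.SynStm

/-! Part CHU: Church's rule in existential form. -/

set_option autoImplicit false

namespace Pool.Agent.H37.EP

open Pool.Agent.Helper687.Arith (PAModel)
open Pool.Agent.H51.EP
open Pool.Agent.H872R3.KH (Tm Fm KModel closure atZero atSucc Ax HAProves Sat)


/-- closures are forced if the formula is forced at all nodes -/
theorem closure_forces (W : KModel) : ∀ {n : ℕ} (φ : Fm n), (∀ k v, W.Forces φ k v) →
    ∀ k, W.Forces (closure n φ) k (fun i => i.elim0) := by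
  intro n
  induction n with
  | zero => intro φ h k; exact h k _
  | succ n ih =>
    intro φ h k
    exact ih (.all φ) (fun k v l hl a => h l _) k

theorem dioF_tm (c : Tm 0) : DioF (fun M _ _ => c.ev (strOf M) (fun i => i.elim0)) := by
  induction c with
  | var i => exact i.elim0
  | zero => exact DioF.zero
  | succ t ih => exact ih.add DioF.one
  | add t s iht ihs => exact iht.add ihs
  | mul t s iht ihs => exact iht.mul ihs

theorem dioF_cv (m : ℕ) : ∀ s : ℕ, DioF (fun _ _ u => cv m (fun i : Fin m => u (i + s))) := by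
  induction m with
  | zero => intro s; exact DioF.zero
  | succ m ih =>
    intro s
    have h1 : DioF (fun M _ u => pr (u (0 + s)) (cv m (fun i : Fin m => u (i + (s + 1))))) :=
      DioF.pr (DioF.var _) (ih (s + 1))
    refine Dio.congr h1 (fun M _ v => ?_)
    have e : (fun i : Fin m => v (((i.succ : Fin (m + 1)) : ℕ) + s + 1)) =
        fun i : Fin m => v ((i : ℕ) + (s + 1) + 1) := by
      funext i
      congr 2
      rw [Fin.val_succ]
      omega
    show v 0 = pr (v (0 + s + 1)) (cv m (fun i : Fin m => v ((i : ℕ) + (s + 1) + 1))) ↔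
      v 0 = pr (v (((0 : Fin (m + 1)) : ℕ) + s + 1))
        (cv m (fun i : Fin m => v (((i.succ : Fin (m + 1)) : ℕ) + s + 1)))
    rw [e]
    rfl

theorem CHU (hRHA : S_RHA) (hPC2 : S_PC2) (hPC3 : S_PC3) (hQT : S_QT) (hUNI : S_UNI)
    (hNF : S_NF) (hTOF : S_TOF) : S_CHU := by
  intro m ψ hψ
  obtain ⟨W, hW⟩ := hUNI
  obtain ⟨c, hc⟩ := hRHA W m (.ex ψ) hψ
  have hR : Dio (fun M _ u => ∃ b, E (c.ev (strOf M) (fun i => i.elim0))
      (pr (cv m (fun i : Fin m => u (i + 1))) 0) (pr (u 0) b)) := by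
    refine Dio.ex (S := fun M _ u b => E (c.ev (strOf M) (fun i => i.elim0))
      (pr (cv m (fun i : Fin m => u (i + 1))) 0) (pr (u 0) b)) ?_
    exact Dio.sub3 (R := fun M _ a b c => E a b c) hPC3 (dioF_tm c)
      (DioF.pr (dioF_cv m 2) DioF.zero) (DioF.pr (DioF.var 1) (DioF.var 0))
  obtain ⟨j, t, s, hj⟩ := hNF _ hR (m + 1)
  have hcev : ∀ k : W.W.K, W.cev k c = c.ev (strOf (W.W.dom k)) (fun i => i.elim0) := by
    intro k
    rw [W.str_eq k]
    rfl
  have hreal : ∀ (k : W.W.K) (v : Fin m → W.W.dom k), ∃ a b,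
      E (c.ev (strOf (W.W.dom k)) (fun i => i.elim0)) (pr (cv m v) 0) (pr a b) ∧
        Q W ψ k (Pool.Agent.H872R3.KH.cns a v) b := by
    intro k v
    obtain ⟨y, hy, a, b, rfl, hq⟩ := hc k v [] List.Forall₂.nil
    rw [hcev] at hy
    exact ⟨a, b, hy, hq⟩
  have hext : ∀ {M : Type} [PAModel M] (v : Fin (m + 1) → M),
      (fun i : Fin m => ext0 v (i + 1)) = fun i => v i.succ := by
    intro M _ v
    funext i
    unfold ext0
    rw [dif_pos (show (i : ℕ) + 1 < m + 1 by omega)]
    rfl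
  have hext0 : ∀ {M : Type} [PAModel M] (v : Fin (m + 1) → M), ext0 v 0 = v 0 := by
    intro M _ v
    unfold ext0
    rw [dif_pos (Nat.succ_pos m)]
    rfl
  refine ⟨j, t, s, (hW _).1 ?_, (hW _).1 ?_⟩
  · refine closure_forces W.W _ ?_
    intro k v l hl hf
    have h1 := (hj _ _).1 ((hTOF.2.2 (m + 1) j t s W l _).1 hf)
    obtain ⟨b, hb⟩ := h1
    rw [hext, hext0] at hb
    obtain ⟨a, b', hE, hq⟩ := hreal l (fun i : Fin m => Set.inclusion (W.W.dom_mono hl) (v i.succ))
    have h2 := hPC2 _ _ _ _ _ hb hE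
    obtain ⟨h3, -⟩ := pr_inj h2
    have h4 := hQT W _ ψ l _ _ hq
    rw [← h3] at h4
    refine cast (congrArg (W.W.Forces ψ l) ?_) h4
    funext i
    refine Fin.cases rfl (fun j => rfl) i
  · refine closure_forces W.W _ ?_
    intro k v
    obtain ⟨a, b, hE, hq⟩ := hreal k v
    refine ⟨a, (hTOF.2.2 (m + 1) j t s W k _).2 ((hj _ _).2 ⟨b, ?_⟩)⟩
    rw [hext, hext0]
    exact hE

end Pool.Agent.H37.EP
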