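import Pool.Agent.H51.EP.SynStm

/-! Part FIN: the final theorem from the parts. -/

set_option autoImplicit false

universe u

namespace Pool.Agent.H37.EP

open Pool.Agent.H51.EP

theorem syn_tm_comp {C : Type u} {n m k : ℕ} (σ : Fin n → Syn.Tm C m) (τ : Fin m → Syn.Tm C k)
    (t : Syn.Tm C n) : (t.subst σ).subst τ = t.subst (fun i => (σ i).subst τ) := by
  induction t with
  | var i => rfl
  | cst c => rfl
  | zero => rfl
  | succ t ih => simp only [Syn.Tm.subst, ih]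
  | add t s iht ihs => simp only [Syn.Tm.subst, iht, ihs]
  | mul t s iht ihs => simp only [Syn.Tm.subst, iht, ihs]

theorem syn_up_comp {C : Type u} {n m k : ℕ} (σ : Fin n → Syn.Tm C m)
    (τ : Fin m → Syn.Tm C k) :
    (fun i => (Syn.up σ i).subst (Syn.up τ)) = Syn.up (fun i => (σ i).subst τ) := by
  funext i
  refine Fin.cases rfl (fun j => ?_) i
  show ((σ j).subst (fun l => Syn.Tm.var l.succ)).subst (Syn.up τ) =
    ((σ j).subst τ).subst (fun l => Syn.Tm.var l.succ)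
  rw [syn_tm_comp, syn_tm_comp]
  rfl

theorem syn_fm_comp {C : Type u} {n : ℕ} (φ : Syn.Fm C n) : ∀ {m k : ℕ}
    (σ : Fin n → Syn.Tm C m) (τ : Fin m → Syn.Tm C k),
    (φ.subst σ).subst τ = φ.subst (fun i => (σ i).subst τ) := by
  induction φ with
  | bot => intro m k σ τ; rfl
  | eq t s => intro m k σ τ; simp only [Syn.Fm.subst, syn_tm_comp]
  | and φ ψ ihφ ihψ => intro m k σ τ; simp only [Syn.Fm.subst, ihφ, ihψ]
  | or φ ψ ihφ ihψ => intro m k σ τ; simp only [Syn.Fm.subst, ihφ, ihψ]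
  | imp φ ψ ihφ ihψ => intro m k σ τ; simp only [Syn.Fm.subst, ihφ, ihψ]
  | all φ ih => intro m k σ τ; simp only [Syn.Fm.subst, ih, syn_up_comp]
  | ex φ ih => intro m k σ τ; simp only [Syn.Fm.subst, ih, syn_up_comp]

theorem syn_up_var {C : Type u} (n : ℕ) :
    Syn.up (fun i : Fin n => (Syn.Tm.var i : Syn.Tm C n)) = fun i => Syn.Tm.var i := by
  funext i
  refine Fin.cases rfl (fun j => rfl) i

theorem syn_tm_id {C : Type u} {n : ℕ} (t : Syn.Tm C n) : t.subst (fun i => .var i) = t := by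
  induction t with
  | var i => rfl
  | cst c => rfl
  | zero => rfl
  | succ t ih => simp only [Syn.Tm.subst, ih]
  | add t s iht ihs => simp only [Syn.Tm.subst, iht, ihs]
  | mul t s iht ihs => simp only [Syn.Tm.subst, iht, ihs]

theorem syn_fm_id {C : Type u} {n : ℕ} (φ : Syn.Fm C n) : φ.subst (fun i => .var i) = φ := by
  induction φ with
  | bot => rfl
  | eq t s => simp only [Syn.Fm.subst, syn_tm_id]
  | and φ ψ ihφ ihψ => simp only [Syn.Fm.subst, ihφ, ihψ]
  | or φ ψ ihφ ihψ => simp only [Syn.Fm.subst, ihφ, ihψ]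
  | imp φ ψ ihφ ihψ => simp only [Syn.Fm.subst, ihφ, ihψ]
  | all φ ih => simp only [Syn.Fm.subst, syn_up_var, ih]
  | ex φ ih => simp only [Syn.Fm.subst, syn_up_var, ih]

theorem syn_fm_id0 {C : Type u} (φ : Syn.Fm C 0) (σ : Fin 0 → Syn.Tm C 0) : φ.subst σ = φ := by
  have : σ = fun i => .var i := funext fun i => i.elim0
  rw [this, syn_fm_id]

theorem emT_subst (C : Type u) {n m : ℕ} (t : K.Tm n) (σ : Fin n → K.Tm m) :
    emT C (t.subst σ) = (emT C t).subst (fun i => emT C (σ i)) := by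
  induction t with
  | var i => rfl
  | zero => rfl
  | succ t ih => simp only [emT, Syn.Tm.subst, Pool.Agent.H872R3.KH.Tm.subst, ih]
  | add t s iht ihs => simp only [emT, Syn.Tm.subst, Pool.Agent.H872R3.KH.Tm.subst, iht, ihs]
  | mul t s iht ihs => simp only [emT, Syn.Tm.subst, Pool.Agent.H872R3.KH.Tm.subst, iht, ihs]

theorem em_up (C : Type u) {n m : ℕ} (σ : Fin n → K.Tm m) :
    (fun i => emT C (K.up σ i)) = Syn.up (fun i => emT C (σ i)) := by
  funext i
  refine Fin.cases rfl (fun j => ?_) i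
  exact emT_subst C (σ j) _

theorem emF_subst (C : Type u) {n : ℕ} (φ : K.Fm n) : ∀ {m : ℕ} (σ : Fin n → K.Tm m),
    emF C (φ.subst σ) = (emF C φ).subst (fun i => emT C (σ i)) := by
  induction φ with
  | bot => intro m σ; rfl
  | eq t s =>
    intro m σ
    simp only [emF, Syn.Fm.subst, Pool.Agent.H872R3.KH.Fm.subst, emT_subst]
  | and φ ψ ihφ ihψ =>
    intro m σ
    simp only [emF, Syn.Fm.subst, Pool.Agent.H872R3.KH.Fm.subst, ihφ, ihψ]
  | or φ ψ ihφ ihψ =>
    intro m σ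
    simp only [emF, Syn.Fm.subst, Pool.Agent.H872R3.KH.Fm.subst, ihφ, ihψ]
  | imp φ ψ ihφ ihψ =>
    intro m σ
    simp only [emF, Syn.Fm.subst, Pool.Agent.H872R3.KH.Fm.subst, ihφ, ihψ]
  | all φ ih =>
    intro m σ
    simp only [emF, Syn.Fm.subst, Pool.Agent.H872R3.KH.Fm.subst, ih, em_up]
  | ex φ ih =>
    intro m σ
    simp only [emF, Syn.Fm.subst, Pool.Agent.H872R3.KH.Fm.subst, ih, em_up]

theorem FIN (hCHU : S_CHU) (hSYD : S_SYD.{u}) (hSY3 : S_SY3.{u}) (hSY3' : S_SY3.{0})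
    (hSY4 : S_SY4.{u}) (hSY5 : S_SY5.{u}) (hSY6 : S_SY6.{u}) (hSY7 : S_SY7.{u}) :
    S_FIN.{u} := by
  classical
  intro M A hA φ hφ
  obtain ⟨L, hL, hprv⟩ := hφ
  have hL' : ∀ α ∈ L, Syn.HA M α ∨ IsLit α := by
    intro α hα
    rcases hL α hα with h | h
    · exact Or.inl h
    · right
      cases h with
      | eq t s _ => exact ⟨t, s, Or.inl rfl⟩
      | ne t s _ => exact ⟨t, s, Or.inr rfl⟩
  obtain ⟨D, hD, hHA⟩ := hSYD M L hL' φ hprv
  obtain ⟨csφ, hcsφ⟩ := hSY7 M 1 φ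
  have h7 := fun α : Syn.Fm M 0 => hSY7 M 0 α
  choose f hf using h7
  -- the list of all constants
  obtain ⟨cs, hcs1, hcs2⟩ : ∃ cs : List M, (∀ c ∈ csφ, c ∈ cs) ∧
      ∀ α ∈ D, ∀ c ∈ f α, c ∈ cs :=
    ⟨csφ ++ D.flatMap f, fun c hc => List.mem_append_left _ hc, fun α hα c hc =>
      List.mem_append_right _ (List.mem_flatMap.2 ⟨α, hα, hc⟩)⟩
  obtain ⟨m, a, ρ, hρ⟩ : ∃ (m : ℕ) (a : Fin m → M) (ρ : M → K.Tm m), ∀ c ∈ cs, ∃ i : Fin m,
      ρ c = Pool.Agent.H872R3.KH.Tm.var i ∧ a i = c := by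
    refine ⟨cs.length, fun i => cs.get i, fun c => if h : c ∈ cs then
      .var (Classical.choose (List.get_of_mem h)) else .zero, fun c hc => ?_⟩
    refine ⟨Classical.choose (List.get_of_mem hc), ?_, Classical.choose_spec (List.get_of_mem hc)⟩
    exact dif_pos hc
  obtain ⟨j, t, s, h1, h2⟩ := hCHU m _ (hHA m ρ)
  -- the witness
  have h3 := hSY3'.2 _ h2
  obtain ⟨h4, h5⟩ := hSY4 m j t s
  obtain ⟨b, hb⟩ := h5 M A (hA _ h4 h3) a
  have h6 := hSY5 M A (m + 1) j t s _ hb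
  obtain ⟨i1, i2, i3, i4, i5, i6⟩ := hSY6 M (Syn.HADiag A)
  have h8 := i6 {α | Syn.HA M α} _ (fun α hα => Or.inl hα) (hSY3.1 M _ h1)
  have h9 := i1 (m + 1) _ (fun i => Fin.cases b a i) h8
  have h10 := i2 _ _ h9 h6
  -- the literals
  have h11 : ∀ D' : List (Syn.Fm M 0), (∀ α ∈ D', α ∈ D) → Syn.Proves (Syn.HADiag A)
      ((emF M (conj (D'.map (trF ρ nov))).sh).subst
        (fun i => Syn.Tm.cst (n := 0) (Fin.cases b a i))) := by
    intro D'
    induction D' with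
    | nil => intro _; exact i5 .zero
    | cons α D' ih =>
      intro hD'
      refine i3 _ _ ?_ (ih fun β hβ => hD' β (List.mem_cons_of_mem _ hβ))
      have hα : α ∈ D := hD' α List.mem_cons_self
      have e1 : (emF M (trF ρ nov α).sh).subst
          (fun i => Syn.Tm.cst (n := 0) (Fin.cases b a i)) = α := by
        unfold Pool.Agent.H872R3.KH.Fm.sh
        rw [emF_subst, syn_fm_comp]
        have e2 := hf α m 0 ρ nov (fun i => Syn.Tm.cst (a i)) (fun c hc => by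
          obtain ⟨i, hi, hi'⟩ := hρ c (hcs2 α hα c hc)
          rw [hi]
          show Syn.Tm.cst (a i) = _
          rw [hi'])
        rw [syn_fm_id0] at e2
        exact e2
      have e3 : Syn.Proves (Syn.HADiag A) α := i4 α (hL α (hD α hα).1)
      rw [← e1] at e3
      exact e3
  have h12 := i2 _ _ h10 (h11 D fun α hα => hα)
  refine ⟨.cst b, ?_⟩
  have e4 := hcsφ (m + 1) 0 (shρ ρ) (K.up nov)
    (fun i => Syn.Tm.cst (Fin.cases b a i)) (fun c hc => by
      obtain ⟨i, hi, hi'⟩ := hρ c (hcs1 c hc)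
      unfold shρ
      rw [hi]
      show Syn.Tm.cst (a i) = _
      rw [hi'])
  rw [e4] at h12
  refine cast (congrArg (Syn.Proves (Syn.HADiag A)) ?_) h12
  unfold Syn.Fm.inst
  congr 1
  funext i
  refine Fin.cases rfl (fun j => j.elim0) i

end Pool.Agent.H37.EP
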