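import Pool.Agent.H51.EP.SynStm

/-! Part PC2: the evaluation relation `E` is functional. -/

set_option autoImplicit false

namespace Pool.Agent.H37.EP

open Pool.Agent.Helper687.Arith Pool.Agent.H51.EP

section

variable {M : Type} [PAModel M]

/-- the conclusion of the rule with tag `t` and parameter `p` -/
def RT (S : M → M → M → Prop) (p x y : M) : ℕ → Prop
  | 0 => y = x
  | 1 => y = p
  | 2 => ∃ z, x = pr y z
  | 3 => ∃ z, x = pr z y
  | 4 => ∃ f g a b, p = pr f g ∧ y = pr a b ∧ S f x a ∧ S g x b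
  | 5 => ∃ f g z, p = pr f g ∧ S f x z ∧ S g z y
  | 6 => ∃ f z, x = pr f z ∧ S f z y
  | 7 => y = cM p x
  | 8 => ∃ f z, p = pr f z ∧ S f (pr z x) y
  | 9 => ∃ f g z n, p = pr f g ∧ x = pr z n ∧ ((n = 0 ∧ S f z y) ∨
      ∃ m, n = m + 1 ∧ S g (pr z m) y)
  | 10 => ∃ f g z n, p = pr f g ∧ x = pr z n ∧ ((n = 0 ∧ S f z y) ∨
      ∃ m u, n = m + 1 ∧ S (cR f g) (pr z m) u ∧ S g (pr (pr z m) u) y)
  | 11 => y = x + 1
  | 12 => ∃ a b, x = pr a b ∧ y = a + b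
  | 13 => ∃ a b, x = pr a b ∧ y = a * b
  | _ => False

theorem Rule.exRT {S : M → M → M → Prop} {f x y : M} (h : Rule S f x y) :
    ∃ (t : ℕ) (p : M), f = pr ((t : ℕ) : M) p ∧ RT S p x y t := by
  cases h with
  | id x => exact ⟨0, 0, by simp [cI], rfl⟩
  | const => exact ⟨1, _, by simp only [cK, Nat.cast_one], rfl⟩
  | fst x y => exact ⟨2, 0, rfl, _, rfl⟩
  | snd x y => exact ⟨3, 0, rfl, _, rfl⟩
  | pair h1 h2 => exact ⟨4, _, rfl, _, _, _, _, rfl, rfl, h1, h2⟩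
  | comp h1 h2 => exact ⟨5, _, rfl, _, _, _, rfl, h1, h2⟩
  | app h1 => exact ⟨6, 0, rfl, _, _, rfl, h1⟩
  | lam f x => exact ⟨7, f, rfl, rfl⟩
  | clo h1 => exact ⟨8, _, rfl, _, _, rfl, h1⟩
  | cases0 h1 => exact ⟨9, _, rfl, _, _, _, _, rfl, rfl, Or.inl ⟨rfl, h1⟩⟩
  | casesS h1 => exact ⟨9, _, rfl, _, _, _, _, rfl, rfl, Or.inr ⟨_, rfl, h1⟩⟩
  | rec0 h1 => exact ⟨10, _, rfl, _, _, _, _, rfl, rfl, Or.inl ⟨rfl, h1⟩⟩
  | recS h1 h2 => exact ⟨10, _, rfl, _, _, _, _, rfl, rfl, Or.inr ⟨_, _, rfl, h1, h2⟩⟩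
  | succ x => exact ⟨11, 0, rfl, rfl⟩
  | add x y => exact ⟨12, 0, rfl, _, _, rfl, rfl⟩
  | mul x y => exact ⟨13, 0, rfl, _, _, rfl, rfl⟩

theorem RT.unique {S S' : M → M → M → Prop}
    (hS : ∀ f x y y', S f x y → S' f x y' → y = y') {p x y y' : M} {t : ℕ}
    (h : RT S p x y t) (h' : RT S' p x y' t) : y = y' := by
  match t, h, h' with
  | 0, h, h' => exact h.trans h'.symm
  | 1, h, h' => exact h.trans h'.symm
  | 2, ⟨z, h⟩, ⟨z', h'⟩ => exact (pr_inj (h.symm.trans h')).1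
  | 3, ⟨z, h⟩, ⟨z', h'⟩ => exact (pr_inj (h.symm.trans h')).2
  | 4, ⟨f, g, a, b, h1, h2, h3, h4⟩, ⟨f', g', a', b', h1', h2', h3', h4'⟩ =>
    obtain ⟨rfl, rfl⟩ := pr_inj (h1.symm.trans h1')
    rw [h2, h2', hS _ _ _ _ h3 h3', hS _ _ _ _ h4 h4']
  | 5, ⟨f, g, z, h1, h3, h4⟩, ⟨f', g', z', h1', h3', h4'⟩ =>
    obtain ⟨rfl, rfl⟩ := pr_inj (h1.symm.trans h1')
    obtain rfl := hS _ _ _ _ h3 h3'
    exact hS _ _ _ _ h4 h4'
  | 6, ⟨f, z, h1, h3⟩, ⟨f', z', h1', h3'⟩ =>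
    obtain ⟨rfl, rfl⟩ := pr_inj (h1.symm.trans h1')
    exact hS _ _ _ _ h3 h3'
  | 7, h, h' => exact h.trans h'.symm
  | 8, ⟨f, z, h1, h3⟩, ⟨f', z', h1', h3'⟩ =>
    obtain ⟨rfl, rfl⟩ := pr_inj (h1.symm.trans h1')
    exact hS _ _ _ _ h3 h3'
  | 9, ⟨f, g, z, n, h1, h2, h3⟩, ⟨f', g', z', n', h1', h2', h3'⟩ =>
    obtain ⟨rfl, rfl⟩ := pr_inj (h1.symm.trans h1')
    obtain ⟨rfl, rfl⟩ := pr_inj (h2.symm.trans h2')
    rcases h3 with ⟨hn, h3⟩ | ⟨m, hn, h3⟩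
    · rcases h3' with ⟨hn', h3'⟩ | ⟨m', hn', h3'⟩
      · exact hS _ _ _ _ h3 h3'
      · exact absurd (hn'.symm.trans hn) (zero_lt_succ' _).ne'
    · rcases h3' with ⟨hn', h3'⟩ | ⟨m', hn', h3'⟩
      · exact absurd (hn.symm.trans hn') (zero_lt_succ' _).ne'
      · obtain rfl : m = m' := add_right_cancel (hn.symm.trans hn')
        exact hS _ _ _ _ h3 h3'
  | 10, ⟨f, g, z, n, h1, h2, h3⟩, ⟨f', g', z', n', h1', h2', h3'⟩ =>
    obtain ⟨rfl, rfl⟩ := pr_inj (h1.symm.trans h1')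
    obtain ⟨rfl, rfl⟩ := pr_inj (h2.symm.trans h2')
    rcases h3 with ⟨hn, h3⟩ | ⟨m, u, hn, h3, h4⟩
    · rcases h3' with ⟨hn', h3'⟩ | ⟨m', u', hn', h3', h4'⟩
      · exact hS _ _ _ _ h3 h3'
      · exact absurd (hn'.symm.trans hn) (zero_lt_succ' _).ne'
    · rcases h3' with ⟨hn', h3'⟩ | ⟨m', u', hn', h3', h4'⟩
      · exact absurd (hn.symm.trans hn') (zero_lt_succ' _).ne'
      · obtain rfl : m = m' := add_right_cancel (hn.symm.trans hn')
        obtain rfl := hS _ _ _ _ h3 h3'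
        exact hS _ _ _ _ h4 h4'
  | 11, h, h' => exact h.trans h'.symm
  | 12, ⟨a, b, h1, h3⟩, ⟨a', b', h1', h3'⟩ =>
    obtain ⟨rfl, rfl⟩ := pr_inj (h1.symm.trans h1')
    rw [h3, h3']
  | 13, ⟨a, b, h1, h3⟩, ⟨a', b', h1', h3'⟩ =>
    obtain ⟨rfl, rfl⟩ := pr_inj (h1.symm.trans h1')
    rw [h3, h3']
  | n + 14, h, _ => exact h.elim

/-- one step of the evaluation is functional -/
theorem Rule.unique {S S' : M → M → M → Prop}
    (hS : ∀ f x y y', S f x y → S' f x y' → y = y') {f x y y' : M}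
    (h : Rule S f x y) (h' : Rule S' f x y') : y = y' := by
  obtain ⟨t, p, hp, hR⟩ := Rule.exRT h
  obtain ⟨t', p', hp', hR'⟩ := Rule.exRT h'
  obtain ⟨e1, rfl⟩ := pr_inj (hp.symm.trans hp')
  obtain rfl : t = t' := Nat.cast_injective e1
  exact RT.unique hS hR hR'

theorem tr_inj {f x y f' x' y' : M} (h : tr f x y = tr f' x' y') :
    f = f' ∧ x = x' ∧ y = y' := by
  obtain ⟨h1, h2⟩ := pr_inj h
  obtain ⟨h2, h3⟩ := pr_inj h2
  exact ⟨h1, h2, h3⟩

end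

theorem PC2 : S_PC2 := by
  rintro M _ f x y y' ⟨a, b, l, hv, hD⟩ ⟨a', b', l', hv', hD'⟩
  have key : ∀ i : M, i < l + 1 → ∀ j, j < l' + 1 → ∀ f x y y', val a b i = tr f x y →
      val a' b' j = tr f x y' → y = y' := by
    refine strong_ind (P := fun i => i < l + 1 → ∀ j, j < l' + 1 → ∀ f x y y',
      val a b i = tr f x y → val a' b' j = tr f x y' → y = y') ?_ ?_
    · unfold tr
      (repeat' first | with_reducible apply Pool.Agent.H51.EP.Def.cg | with_reducible apply Pool.Agent.H51.EP.DefF.pr | with_reducible apply Pool.Agent.H51.EP.DefF.bn | with_reducible apply Pool.Agent.H51.EP.DefF.ff | with_reducible apply Pool.Agent.H51.EP.DefF.fc | with_reducible apply Pool.Agent.H51.EP.DefF.pw | with_reducible apply Pool.Agent.H51.EP.DefF.sb | with_reducible apply Pool.Agent.H51.EP.DefF.rc | with_reducible apply Pool.Agent.H51.EP.Def.dvd | assumption | with_reducible exact Pool.Agent.Helper687.Arith.DefF.var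 _ | with_reducible exact Pool.Agent.Helper687.Arith.DefF.const _ | with_reducible exact Pool.Agent.Helper687.Arith.Def.const _ | with_reducible apply Pool.Agent.Helper687.Arith.DefF.val | with_reducible apply Pool.Agent.Helper687.Arith.DefF.pow2 | with_reducible apply Pool.Agent.Helper687.Arith.Def.and | with_reducible apply Pool.Agent.Helper687.Arith.Def.or | with_reducible apply Pool.Agent.Helper687.Arith.Def.iff | with_reducible apply Pool.Agent.Helper687.Arith.Def.not | with_reducible apply Pool.Agent.Helper687.Arith.Def.ex | with_reducible apply Pool.Agent.Helper687.Arith.Def.all | with_reducible apply Pool.Agent.Helper687.Arith.Def.imp | with_reducible apply Pool.Agent.Helper687.Arith.Def.eq | with_reducible apply Pool.Agent.Helper687.Arith.Def.lt | with_reducible apply Pool.Agent.Helper687.Arith.Def.le | with_reducible apply Pool.Agent.Helper687.Arith.DefF.add | with_reducible apply Pool.Agent.Helper687.Arith.DefF.mul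 | with_reducible apply Pool.Agent.Helper687.Arith.DefF.the)
    · intro i ih hi j hj f x y y' h h'
      obtain ⟨f1, x1, y1, e1, hR⟩ := hD i hi
      obtain ⟨f2, x2, y2, e2, hR'⟩ := hD' j hj
      obtain ⟨rfl, rfl, rfl⟩ := tr_inj (h.symm.trans e1)
      obtain ⟨rfl, rfl, rfl⟩ := tr_inj (h'.symm.trans e2)
      refine Rule.unique ?_ hR hR'
      rintro f' x' z z' ⟨k, hk, ek⟩ ⟨k', hk', ek'⟩
      exact ih k hk (hk.trans hi) k' (hk'.trans hj) f' x' z z' ek ek'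
  exact key l (lt_succ_iff.mpr le_rfl) l' (lt_succ_iff.mpr le_rfl) f x y y' hv hv'

end Pool.Agent.H37.EP
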