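import Pool.Agent.H51.EP.SynStm

/-! Part RIN: the induction axioms are realizable. -/

set_option autoImplicit false

namespace Pool.Agent.H37.EP

open Pool.Agent.Helper687.Arith (PAModel)
open Pool.Agent.H51.EP
open Pool.Agent.H872R3.KH (Tm Fm KModel closure atZero atSucc Ax)


/-- forced closures can be instantiated -/
theorem forces_of_closure (W : KModel) : ∀ {n : ℕ} (φ : Fm n),
    (∀ k, W.Forces (closure n φ) k (fun i => i.elim0)) → ∀ k v, W.Forces φ k v := by
  intro n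
  induction n with
  | zero =>
    intro φ h k v
    have : v = fun i => i.elim0 := funext fun i => i.elim0
    rw [this]
    exact h k
  | succ n ih =>
    intro φ h k v
    have h1 := ih (.all φ) h k (fun i => v i.succ) k le_rfl (v 0)
    have e : Pool.Agent.H872R3.KH.cns (v 0) (fun i => Set.inclusion (W.dom_mono le_rfl) (v i.succ)) = v := by
      funext i
      refine Fin.cases rfl (fun j => rfl) i
    rw [e] at h1
    exact h1

section codes

variable {M : Type} [PAModel M]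

def fC : M := cC cS cF
def bC : M := cC cF (cC cF (cC cS cS))
def nC : M := cC cF cS
def aC : M := cC (cP bC nC) cA
def gC : M := cC (cP aC cS) cA
def hC : M := cR fC gC

theorem E_f (h1 : S_PC1) (X r0 r1 : M) : E fC (pr X (pr r0 r1)) r0 :=
  h1 M _ _ _ (Rule.comp (h1 M _ _ _ (Rule.snd _ _)) (h1 M _ _ _ (Rule.fst _ _)))

theorem E_b (h1 : S_PC1) (X r0 r1 b u : M) : E bC (pr (pr (pr X (pr r0 r1)) b) u) r1 :=
  h1 M _ _ _ (Rule.comp (h1 M _ _ _ (Rule.fst _ _)) (h1 M _ _ _ (Rule.comp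
    (h1 M _ _ _ (Rule.fst _ _)) (h1 M _ _ _ (Rule.comp (h1 M _ _ _ (Rule.snd _ _))
      (h1 M _ _ _ (Rule.snd _ _)))))))

theorem E_n (h1 : S_PC1) (x b u : M) : E nC (pr (pr x b) u) b :=
  h1 M _ _ _ (Rule.comp (h1 M _ _ _ (Rule.fst _ _)) (h1 M _ _ _ (Rule.snd _ _)))

theorem E_a (h1 : S_PC1) {X r0 r1 b u w : M} (h : E r1 b w) :
    E aC (pr (pr (pr X (pr r0 r1)) b) u) w :=
  h1 M _ _ _ (Rule.comp (h1 M _ _ _ (Rule.pair (E_b h1 X r0 r1 b u) (E_n h1 _ b u)))
    (h1 M _ _ _ (Rule.app h)))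

theorem E_g (h1 : S_PC1) {X r0 r1 b u w y : M} (h : E r1 b w) (h' : E w u y) :
    E gC (pr (pr (pr X (pr r0 r1)) b) u) y :=
  h1 M _ _ _ (Rule.comp (h1 M _ _ _ (Rule.pair (E_a h1 h) (h1 M _ _ _ (Rule.snd _ _))))
    (h1 M _ _ _ (Rule.app h')))

theorem E_h0 (h1 : S_PC1) (X r0 r1 : M) : E hC (pr (pr X (pr r0 r1)) 0) r0 :=
  h1 M _ _ _ (Rule.rec0 (E_f h1 X r0 r1))

theorem E_hS (h1 : S_PC1) {X r0 r1 b u w y : M} (h : E r1 b w) (h' : E w u y)
    (hu : E hC (pr (pr X (pr r0 r1)) b) u) : E hC (pr (pr X (pr r0 r1)) (b + 1)) y :=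
  h1 M _ _ _ (Rule.recS hu (E_g h1 h h'))

end codes

def fT : Tm 0 := tC tS tF
def bT : Tm 0 := tC tF (tC tF (tC tS tS))
def nT : Tm 0 := tC tF tS
def aT : Tm 0 := tC (tP bT nT) tA
def gT : Tm 0 := tC (tP aT tS) tA
def hT : Tm 0 := tR fT gT

theorem cev_hT (hC' : S_COD) (W : LW) (k : W.W.K) : W.cev k hT = hC := by
  obtain ⟨-, -, -, -, eF, eS, eP, eC, eA, eL, eD, eR, -⟩ := hC' W k
  simp only [hT, gT, aT, nT, bT, fT, eF, eS, eP, eC, eA, eR, hC, gC, aC, nC, bC, fC]

theorem inc_cM (hC' : S_COD) (W : LW) {k l : W.W.K} (h : k ≤ l) (x : W.W.dom k) (c : Tm 0) :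
    W.inc h (cM (W.cev k c) x) = cM (W.cev l c) (W.inc h x) := by
  obtain ⟨-, hn, -, -, eF, eS, eP, eC, eA, eL, eD, eR, -, -, -, hi, hpr, -⟩ := hC' W k
  obtain ⟨-, hn', -⟩ := hC' W l
  unfold cM
  rw [hpr, hpr, hi l h c]
  have h8 := hi l h (num0 8)
  rw [hn, hn'] at h8
  rw [h8]

/-- the formula for which the induction axiom is used -/
def psi (e : EF) {n : ℕ} (φ : Fm (n + 1)) : Fm (n + 2) :=
  .ex (.and (eFm e (hT.subst (fun i => i.elim0)) (prT (.var 2) (.var 1)) (.var 0))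
    ((qF e φ).subst (fun i => Fin.cases (.var 0) (fun j =>
      Fin.cases (.var 1) (fun l => .var l.succ.succ.succ) j) i)))

theorem prT_ev (W : LW) (k : W.W.K) {n : ℕ} (t s : Tm n) (v : Fin n → W.W.dom k) :
    (prT t s).ev (W.W.str k) v = pr (t.ev (W.W.str k) v) (s.ev (W.W.str k) v) := by
  have ea : ∀ a b : W.W.dom k, (W.W.str k).add a b = a + b := fun a b => by
    rw [← W.str_eq k]; rfl
  have em : ∀ a b : W.W.dom k, (W.W.str k).mul a b = a * b := fun a b => by
    rw [← W.str_eq k]; rfl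
  simp only [prT, Tm.ev, ea, em, pr]

theorem forces_psi {e : EF} (he : ∀ (M : Type) [PAModel M] (v : ℕ → M),
    e.ev v ↔ E (v 0) (v 1) (v 2)) (hC' : S_COD) (hQF : S_QF) (hTOF : S_TOF) (W : LW) {n : ℕ}
    (φ : Fm (n + 1)) (k : W.W.K) (b x : W.W.dom k) (v : Fin n → W.W.dom k) :
    W.F (psi e φ) k (Pool.Agent.H872R3.KH.cns b (Pool.Agent.H872R3.KH.cns x v)) ↔
      ∃ z, E (hC : W.W.dom k) (pr x b) z ∧ Q W φ k (Pool.Agent.H872R3.KH.cns b v) z := by
  refine exists_congr fun z => and_congr ?_ ?_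
  · refine (hTOF.2.1 e (n + 3) _ W k _).trans ((he _ _).trans ?_)
    have e1 : (hT.subst (fun i => i.elim0) : Tm (n + 3)).ev (W.W.str k) (Pool.Agent.H872R3.KH.cns z (Pool.Agent.H872R3.KH.cns b (Pool.Agent.H872R3.KH.cns x v))) =
        hC := by
      rw [Pool.Agent.H872R3.KH.Tm.ev_subst, ← cev_hT hC' W k]
      unfold LW.cev
      congr 1
      funext i
      exact i.elim0
    have e2 : (prT (.var 2) (.var 1) : Tm (n + 3)).ev (W.W.str k) (Pool.Agent.H872R3.KH.cns z (Pool.Agent.H872R3.KH.cns b (Pool.Agent.H872R3.KH.cns x v))) =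
        pr x b := by
      rw [prT_ev]
      rfl
    show E ((hT.subst (fun i => i.elim0) : Tm (n + 3)).ev (W.W.str k) (Pool.Agent.H872R3.KH.cns z (Pool.Agent.H872R3.KH.cns b (Pool.Agent.H872R3.KH.cns x v))))
      ((prT (.var 2) (.var 1) : Tm (n + 3)).ev (W.W.str k) (Pool.Agent.H872R3.KH.cns z (Pool.Agent.H872R3.KH.cns b (Pool.Agent.H872R3.KH.cns x v)))) z ↔ _
    rw [e1, e2]
  · refine Iff.trans ?_ (hQF e he W (n + 1) φ k (Pool.Agent.H872R3.KH.cns b v) z)
    refine (W.W.forces_subst _ _ _ _).trans ?_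
    have e1 : (fun i : Fin (n + 1 + 1) => (Fin.cases (motive := fun _ => Tm (n + 3)) (.var 0)
        (fun j => Fin.cases (motive := fun _ => Tm (n + 3)) (.var 1)
          (fun l => .var l.succ.succ.succ) j) i).ev (W.W.str k) (Pool.Agent.H872R3.KH.cns z (Pool.Agent.H872R3.KH.cns b (Pool.Agent.H872R3.KH.cns x v)))) =
        Pool.Agent.H872R3.KH.cns z (Pool.Agent.H872R3.KH.cns b v) := by
      funext i
      refine Fin.cases rfl (fun j => Fin.cases rfl (fun l => rfl) j) i
    exact iff_of_eq (congrArg (W.W.Forces (qF e φ) k) e1)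

theorem RIN (h1 : S_PC1) (h3 : S_PC3) (hC' : S_COD) (hQF : S_QF) (hQM : S_QM) (hQS : S_QS)
    (hTOF : S_TOF) : S_RIN := by
  obtain ⟨e, he⟩ := h3
  intro W n φ
  have hz : ∀ k : W.W.K, (W.W.str k).zero = 0 := fun k => by rw [← W.str_eq k]; rfl
  have hs : ∀ (k : W.W.K) (a : W.W.dom k), (W.W.str k).succ a = a + 1 := fun k a => by
    rw [← W.str_eq k]; rfl
  have hψ := @forces_psi e he hC' hQF hTOF W n φ
  refine ⟨tL (tL hT), ?_⟩
  intro k v rs hrs
  obtain rfl : rs = [] := by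
    cases hrs
    rfl
  have eL := (hC' W k).2.2.2.2.2.2.2.2.2.1
  refine ⟨cM (W.cev k (tL hT)) (pr (cv n v) (cl [])), ?_, ?_, ?_⟩
  · rw [eL]
    exact h1 _ _ _ _ (Rule.lam _ _)
  · exact forces_of_closure W.W _ (fun k => W.ha k _ (Ax.ind n φ)) k v
  · intro l h a ha
    obtain ⟨r0, r1, rfl, h0, hr1⟩ := ha
    have eL' := (hC' W l).2.2.2.2.2.2.2.2.2.1
    refine ⟨cM (W.cev l hT) (pr (W.inc h (pr (cv n v) (cl []))) (pr r0 r1)), ?_, ?_⟩
    · rw [inc_cM hC', eL']
      exact h1 _ _ _ _ (Rule.clo (h1 _ _ _ _ (Rule.lam _ _)))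
    · intro m hm b
      have hpr := (hC' W l).2.2.2.2.2.2.2.2.2.2.2.2.2.2.2.2.1
      generalize hX : W.inc h (pr (cv n v) (cl [])) = X
      have key : ∃ z, E (hC : W.W.dom m) (pr (W.inc hm (pr X (pr r0 r1))) b) z ∧
          Q W φ m (Pool.Agent.H872R3.KH.cns b (fun i => W.inc hm (W.inc h (v i)))) z := by
        rw [← hψ m b (W.inc hm (pr X (pr r0 r1)))]
        have hax := forces_of_closure W.W _ (fun k => W.ha k _ (Ax.ind (n + 1) (psi e φ))) m
          (Pool.Agent.H872R3.KH.cns (W.inc hm (pr X (pr r0 r1))) (fun i => W.inc hm (W.inc h (v i))))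
        refine hax m le_rfl ⟨?_, ?_⟩ m le_rfl b
        · -- zero
          refine (W.W.forces_subst (psi e φ) _ m _).2 ?_
          have e1 : (fun i : Fin (n + 1 + 1) => (Fin.cases (motive := fun _ => Tm (n + 1)) .zero
              (fun j => .var j) i).ev (W.W.str m)
              (fun i => Set.inclusion (W.W.dom_mono (le_refl m))
                ((Pool.Agent.H872R3.KH.cns (W.inc hm (pr X (pr r0 r1))) (fun i => W.inc hm (W.inc h (v i))) :
                  Fin (n + 1) → W.W.dom m) i))) =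
              Pool.Agent.H872R3.KH.cns 0 (Pool.Agent.H872R3.KH.cns (W.inc hm (pr X (pr r0 r1))) (fun i => W.inc hm (W.inc h (v i)))) := by
            funext i
            refine Fin.cases (hz m) (fun j => rfl) i
          rw [e1]
          refine (hψ m _ _ _).2 ⟨W.inc hm r0, ?_, ?_⟩
          · rw [hpr, hpr]
            exact E_h0 h1 _ _ _
          · have h2 := hQM W n (atZero φ) l m hm _ r0 h0
            have h3 := (hQS W (n + 1) n φ _ m _ _).1 h2
            have e2 : (fun i : Fin (n + 1) => (Fin.cases (motive := fun _ => Tm n) .zero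
              (fun j => .var j) i).ev (W.W.str m) (fun i => W.inc hm (W.inc h (v i)))) =
              Pool.Agent.H872R3.KH.cns 0 (fun i => W.inc hm (W.inc h (v i))) := by
              funext i
              refine Fin.cases (hz m) (fun j => rfl) i
            rw [e2] at h3
            exact h3
        · -- successor
          intro m1 hm1 b1 m2 hm2 hf
          have h12 : m ≤ m2 := le_trans hm1 hm2
          have hf' : W.F (psi e φ) m2 (Pool.Agent.H872R3.KH.cns (W.inc hm2 b1) (Pool.Agent.H872R3.KH.cns (W.inc (hm.trans h12)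
              (pr X (pr r0 r1))) (fun i => W.inc ((h.trans hm).trans h12) (v i)))) := by
            refine cast (congrArg (W.W.Forces (psi e φ) m2) ?_) hf
            funext i
            refine Fin.cases rfl (fun j => Fin.cases rfl (fun l => rfl) j) i
          obtain ⟨z, hz1, hz2⟩ := (hψ m2 _ _ _).1 hf'
          refine (W.W.forces_subst (psi e φ) _ m2 _).2 ?_
          have hr := hQM W n _ l m2 (hm.trans h12) _ r1 hr1
          obtain ⟨w, hw1, hw2⟩ := hr m2 le_rfl (W.inc hm2 b1)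
          obtain ⟨-, hw2⟩ := hw2
          obtain ⟨y, hy1, hy2⟩ := hw2 m2 le_rfl z (by
            refine cast (congrArg (fun u => Q W φ m2 u z) ?_) hz2
            funext i
            refine Fin.cases rfl (fun j => rfl) i)
          have hy3 := (hQS W (n + 1) (n + 1) φ _ m2 _ _).1 hy2
          refine cast (congrArg (W.W.Forces (psi e φ) m2) ?_)
            ((hψ m2 (W.inc hm2 b1 + 1) (W.inc (hm.trans h12) (pr X (pr r0 r1)))
              (fun i => W.inc ((h.trans hm).trans h12) (v i))).2 ⟨y, ?_, ?_⟩)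
          · funext i
            refine Fin.cases (hs m2 _).symm (fun j => Fin.cases rfl (fun l => rfl) j) i
          · rw [hpr, hpr] at hz1 ⊢
            exact E_hS h1 hw1 hy1 hz1
          · refine cast (congrArg (fun u => Q W φ m2 u y) ?_) hy3
            funext i
            refine Fin.cases (hs m2 _) (fun j => rfl) i
      obtain ⟨z, hz1, hz2⟩ := key
      refine ⟨z, ?_, hz2⟩
      rw [inc_cM hC', cev_hT hC']
      exact h1 _ _ _ _ (Rule.clo hz1)

end Pool.Agent.H37.EP
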